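import Mathlib
import Pool.Agent.U128.EqvSet

/-!
# The polynomial Freiman-Ruzsa conjecture with a group of automorphisms

Let a group `G` act by automorphisms on the abelian group `Γ` (`g • V` is the image of the subgroup `V`
under `g`, `A + g • A` the sumset), and let `A ⊆ Γ` be a finite nonempty set with
`|A + g A| ≤ K |A|` for all `g ∈ G` (so `|A + A| ≤ K |A|`, case `g = 1`); for instance a `G`-invariant
set of doubling `K`. The size, structure and number of generators of `G` play no role in the bounds.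

1. Any group `Γ`: if `A` is covered by `L` cosets of a finite subgroup `H` of order at most `L |A|`
   with finitely many images `g H`, then `A` is covered by `K ^ 2 L ^ 7` cosets of a finite
   `G`-INVARIANT subgroup of order at most `K ^ 2 L ^ 7 |A|`.
2. `m Γ = 0`: if the union of the sets `g A` is finite (for instance `A` invariant, or `G` or `Γ`
   finite), then `A` is covered by `(2 K) ^ (205027 (⌊log₂ m⌋ + 1))` cosets of a finite `G`-invariant
   subgroup of order at most `(2 K) ^ (164022 (⌊log₂ m⌋ + 1)) |A|`. (For the cyclic shifts of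
   `Γ = 𝔽_p ^ n` the subgroup is a cyclic code. Order at most `|A|` is not possible, see 4.)
3. The converse, up to the exponents.
4. Growth in irreducible modules: if moreover `Γ` is finite and has no `G`-invariant subgroups except
   `0` and `Γ`, then for every nonempty `A ⊆ Γ` some `g ∈ G` satisfies
   `|A + g A| ≥ (1/2) min (|A|, |Γ| / |A|) ^ c |A|`, where `c = 1 / e > 0` with
   `e = 205027 (⌊log₂ m⌋ + 1)` depends only on the exponent `m`, not on the rank of `Γ` nor on `G`.

Proof. The images of the subgroup `H` given by Marton's conjecture (`TorsionLogExponent`, a starting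
result) are commensurable, `[H : H ∩ g H] ≤ n`. The product of the numbers
`[V : V ∩ U] [U : V ∩ U]`, `U` in the orbit of `H`, is a submodular function of the finite subgroup
`V`. So the intersection of two minimisers is a minimiser, and the smallest minimiser is invariant.
-/

set_option autoImplicit false
open scoped Pointwise

namespace Pool.Agent.Results.MP_dd2a7c_co.InvariantSubgroups

universe u v

/-- **The polynomial Freiman-Ruzsa conjecture with a group `G` of automorphisms.** (1) the invariance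
comes for free, (2) groups of bounded exponent, (3) the converse, (4) growth in irreducible modules. -/
theorem result (Γ : Type u) [AddCommGroup Γ] [DecidableEq Γ] (G : Type v) [Group G]
    [DistribMulAction G Γ] :
    (∀ (K L : ℝ) (A T : Finset Γ) (H : AddSubgroup Γ), A.Nonempty → Finite H →
      (Set.range fun g : G => g • H).Finite →
      (∀ a ∈ A, ∃ t ∈ T, a - t ∈ H) → (T.card : ℝ) ≤ L → (Nat.card H : ℝ) ≤ L * A.card →
      (∀ g : G, ((A + g • A).card : ℝ) ≤ K * A.card) →
      ∃ (N : AddSubgroup Γ) (T' : Finset Γ), Finite N ∧ (∀ g : G, g • N = N) ∧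
        (Nat.card N : ℝ) ≤ K ^ 2 * L ^ 7 * A.card ∧ (T'.card : ℝ) ≤ K ^ 2 * L ^ 7 ∧
        ∀ a ∈ A, ∃ t ∈ T', a - t ∈ N) ∧
    (∀ m : ℕ, 0 < m → (∀ x : Γ, m • x = 0) → ∀ (K : ℝ) (A : Finset Γ), A.Nonempty →
      {x : Γ | ∃ g : G, g • x ∈ A}.Finite →
      (∀ g : G, ((A + g • A).card : ℝ) ≤ K * A.card) →
      ∃ (N : AddSubgroup Γ) (T : Finset Γ), Finite N ∧ (∀ g : G, g • N = N) ∧
        (Nat.card N : ℝ) ≤ (2 * K) ^ (164022 * (Nat.log 2 m + 1)) * A.card ∧
        (T.card : ℝ) ≤ (2 * K) ^ (205027 * (Nat.log 2 m + 1)) ∧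
        ∀ a ∈ A, ∃ t ∈ T, a - t ∈ N) ∧
    (∀ (L : ℝ) (A T : Finset Γ) (N : AddSubgroup Γ), Finite N → (∀ g : G, g • N = N) →
      (∀ a ∈ A, ∃ t ∈ T, a - t ∈ N) → (T.card : ℝ) ≤ L → (Nat.card N : ℝ) ≤ L * A.card →
      ∀ g : G, ((A + g • A).card : ℝ) ≤ L ^ 3 * A.card) ∧
    (Finite Γ → ∀ m : ℕ, 0 < m → (∀ x : Γ, m • x = 0) →
      (∀ V : AddSubgroup Γ, (∀ g : G, g • V = V) → V = ⊥ ∨ V = ⊤) →
      ∀ A : Finset Γ, A.Nonempty → ∀ e : ℕ, e = 205027 * (Nat.log 2 m + 1) →
        ∃ g : G, 1 / 2 * (min (A.card : ℝ) (Nat.card Γ / A.card)) ^ ((1 : ℝ) / e) * A.card ≤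
          (A + g • A).card) := by
  refine ⟨?_, ?_, ?_, ?_⟩
  · intro K L A T H hA hH hfin hcov hT hHL hK
    have hpos : (0 : ℝ) < A.card := by exact_mod_cast hA.card_pos
    have hL0 : 0 ≤ L := le_trans (by positivity) hT
    have hK0 : 0 ≤ K := by
      have h1 := hK 1
      have h2 : (0 : ℝ) ≤ (A + (1 : G) • A).card := by positivity
      by_contra hneg
      push Not at hneg
      nlinarith
    obtain ⟨N, T', hNf, hinv, hNc, hT', hN⟩ :=
      Pool.Agent.U128.EqvSet.principle A T hA K L H hcov hHL hfin hK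
    have h1 : (L * K * (T.card : ℝ) ^ 2) ^ 2 ≤ K ^ 2 * L ^ 6 := by
      calc (L * K * (T.card : ℝ) ^ 2) ^ 2 ≤ (L * K * L ^ 2) ^ 2 := by gcongr
        _ = _ := by ring
    refine ⟨N, T', hNf, hinv, ?_, ?_, hN⟩
    · calc (Nat.card N : ℝ) ≤ (L * K * (T.card : ℝ) ^ 2) ^ 2 * Nat.card H := hNc
        _ ≤ (K ^ 2 * L ^ 6) * (L * A.card) :=
            mul_le_mul h1 hHL (by positivity) (by positivity)
        _ = _ := by ring
    · calc (T'.card : ℝ) ≤ (L * K * (T.card : ℝ) ^ 2) ^ 2 * T.card := hT'
        _ ≤ (K ^ 2 * L ^ 6) * L := mul_le_mul h1 hT (by positivity) (by positivity)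
        _ = _ := by ring
  · intro m hm htor K A hA hfin hK
    exact Pool.Agent.U128.EqvSet.torsion m hm htor K A hA hfin hK
  · intro L A T N hN hinv hcov hT hNc g
    exact Pool.Agent.U128.EqvSet.converse A T L N hinv hcov hT hNc g
  · intro hfin m hm htor hirr A hA e he
    exact Pool.Agent.U128.EqvSet.irreducible m hm htor hirr A hA e he.ge

end Pool.Agent.Results.MP_dd2a7c_co.InvariantSubgroups
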