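import Pool.Agent.U364.PP.Bound
import Pool.Agent.TH404.Tor.Final

/-!
# The polynomial Freiman-Ruzsa conjecture for modules over `(ℤ / m)[t]`, with progressions over this ring

In the polynomial Freiman-Ruzsa conjecture (Q1) sets of small doubling in an abelian group, i.e. in a `ℤ`-module, are
covered by few translates of `P + H`, where `H` is a finite subgroup and `P` is a progression with `O(log K)`
generators. For groups of exponent `m` the progression can be omitted. Here the structure over a larger ring of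
coefficients is determined: let `T` be an endomorphism of the group, so that the group is a module over `(ℤ / m)[t]`,
and suppose that `A + A` and `A + T A` are small. Then `A` is covered by `K ^ O(log m)` translates of `N + P`, where
`N` is a finite submodule (`T N ⊆ N`) and `P` is a progression over `(ℤ / m)[t]`: the set of the sums
`∑ a, f a(T) (v a)`, where the `f a` are the polynomials of degree less than `n a` with coefficients in
`{0, …, p a - 1}`, for primes `p a ∣ m`. This is proper, `N + P` is a subgroup with at most `|A|` elements, and the number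
of the generators `v a` is `O(log K)`, more precisely `∏ p a ≤ K ^ O(log m)`. If `m = p` is a prime then all the `p a` are
equal to `p`, `P` consists of all `∑ f a(T) (v a)` with polynomials `f a` over `𝔽_p` of degree less than `n a`, and the
number of generators is at most `C log K` with an absolute constant `C`. So this is the analogue of Q1 with the ring
`𝔽_p[t]` in the place of `ℤ`.

If `T` is injective (for example if the group is a torsion-free `𝔽_p[t]`-module; then moreover `N = 0`, as it is a finite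
submodule) then it is enough that `A + T A` is small. Conversely each set which is covered by few translates of such an
`N + P` and has about as many elements satisfies the hypothesis.

Proof. By the theorem for bounded torsion (starting result `TorsionLogExponent`) `A` is covered by few cosets of a
subgroup `V`, and `V` is almost invariant: `|V + T V| ≤ K ^ O(log m) |V|` (`index_bound`). The structure of the finite
subgroups which are almost invariant under an endomorphism is determined in `Pool.Agent.U364.PP.tower`: let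
`V₁ = {x ∈ V : T x ∈ V}`, and apply induction to `V₁`; `T` maps `V₁ / V₂` injectively to `V / V₁`.
-/

set_option autoImplicit false

open Finset
open scoped Pointwise

universe u

namespace Pool.Agent.Results.MP_dd2a7c_co.PolynomialProgressions

open Pool.Agent.U364.PP

variable {Γ : Type u} [AddCommGroup Γ]

/-- The element `h + ∑ a, ∑ j < n a, c a j • T ^ j (v a)` for `x = (h, c)`, `h ∈ N`, `0 ≤ c a j < p a`. -/
def value (T : Γ →+ Γ) (N : AddSubgroup Γ) {r : ℕ} (p n : Fin r → ℕ) (v : Fin r → Γ)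
    (x : N × ((a : Fin r) → Fin (n a) → Fin (p a))) : Γ :=
  x.1 + ∑ a, ∑ j : Fin (n a), (x.2 a j : ℕ) • T^[(j : ℕ)] (v a)

/-- The subgroup `V` is a proper progression over `ℤ[T]` plus a finite submodule: `N` is a finite subgroup with
`T N ⊆ N`, the `p a` are primes, `n a ≥ 1`, and `V` consists of the elements
`h + ∑ a, ∑ j < n a, c a j • T ^ j (v a)`, `h ∈ N`, `0 ≤ c a j < p a`, which are all different. -/
def IsProgression (T : Γ →+ Γ) (N : AddSubgroup Γ) {r : ℕ} (p n : Fin r → ℕ) (v : Fin r → Γ)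
    (V : AddSubgroup Γ) : Prop :=
  Finite N ∧ (∀ x ∈ N, T x ∈ N) ∧ (∀ a, (p a).Prime ∧ 1 ≤ n a) ∧
    Function.Injective (value T N p n v) ∧ Set.range (value T N p n v) = V

/-- The conclusion: `A` is covered by at most `(2 K) ^ (41005 s (⌊log₂ m⌋ + 1))` cosets of a subgroup `V` with at most
`|A|` elements which is of the form `N + P` (see `IsProgression`), with primes `p a ∣ m` whose product is at most
`(2 K) ^ (82011 s (⌊log₂ m⌋ + 1))`; if `m` is prime, then the number `r` of the generators `v a` is at most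
`164022 s log₂ (2 K)`. -/
def Structured (T : Γ →+ Γ) (m : ℕ) (K : ℝ) (A : Finset Γ) (s : ℕ) : Prop :=
  ∃ (N : AddSubgroup Γ) (r : ℕ) (p n : Fin r → ℕ) (v : Fin r → Γ) (V : AddSubgroup Γ) (X : Finset Γ),
    IsProgression T N p n v V ∧ (∀ a, p a ∣ m) ∧ Nat.card V ≤ A.card ∧
    ((∏ a, p a : ℕ) : ℝ) ≤ (2 * K) ^ (82011 * s * (Nat.log 2 m + 1)) ∧
    (X.card : ℝ) ≤ (2 * K) ^ (41005 * s * (Nat.log 2 m + 1)) ∧ (∀ a ∈ A, ∃ x ∈ X, a - x ∈ V) ∧
    (m.Prime → (r : ℝ) ≤ 164022 * s * Real.logb 2 (2 * K))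

/-- finite subgroups are progressions -/
theorem progression (T : Γ →+ Γ) (V : AddSubgroup Γ) [Finite V] :
    ∃ (N : AddSubgroup Γ) (r : ℕ) (p n : Fin r → ℕ) (v : Fin r → Γ),
      IsProgression T N p n v V ∧ (V.comap T).relIndex V = ∏ a, p a ∧
      (∀ m : ℕ, (∀ x ∈ V, m • x = 0) → ∀ a, p a ∣ m) := by
  obtain ⟨N, r, p, n, v, hNV, hTN, hp, hn, hv, hrep, hcard, -, hrel, hdvd⟩ :=
    tower T (Nat.card V) V inferInstance le_rfl
  have hfN : Finite N := Finite.of_injective (AddSubgroup.inclusion hNV)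
    (AddSubgroup.inclusion_injective hNV)
  have hmem : ∀ x, value T N p n v x ∈ V := by
    intro x
    refine V.add_mem (hNV x.1.2) (V.sum_mem fun a _ => V.sum_mem fun j _ => V.nsmul_mem (hv a j j.2) _)
  have hsurj : Function.Surjective (fun x => (⟨value T N p n v x, hmem x⟩ : V)) := by
    rintro ⟨x, hx⟩
    obtain ⟨h, hh, c, hc, rfl⟩ := hrep x hx
    refine ⟨(⟨h, hh⟩, fun a j => ⟨c a j, hc a j⟩), Subtype.ext ?_⟩
    change h + ∑ a, ∑ j : Fin (n a), c a j • T^[(j : ℕ)] (v a) = _
    congr 1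
    refine Finset.sum_congr rfl fun a _ => ?_
    exact Fin.sum_univ_eq_sum_range (fun j => c a j • T^[j] (v a)) (n a)
  have hbij := hsurj.bijective_of_nat_card_le (by
    rw [Nat.card_prod, Nat.card_pi, hcard]
    refine Nat.mul_le_mul_left _ (le_of_eq (Finset.prod_congr rfl fun a _ => ?_))
    simp)
  refine ⟨N, r, p, n, v, ⟨hfN, hTN, fun a => ⟨hp a, hn a⟩, fun x y hxy => ?_, ?_⟩, hrel, hdvd⟩
  · exact hbij.1 (Subtype.ext hxy)
  · ext x
    constructor
    · rintro ⟨y, rfl⟩
      exact hmem y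
    · intro hx
      obtain ⟨y, hy⟩ := hsurj ⟨x, hx⟩
      exact ⟨y, congrArg (fun z : V => (z : Γ)) hy⟩

/-- the main step -/
theorem main (m : ℕ) (hm : 0 < m) [DecidableEq Γ] (htor : ∀ x : Γ, m • x = 0) (T : Γ →+ Γ) (K : ℝ)
    (A : Finset Γ) (hA : A.Nonempty) (h1 : ((A + A).card : ℝ) ≤ K * A.card)
    (h2 : ((A + A.image T).card : ℝ) ≤ K * A.card) : Structured T m K A 1 := by
  obtain ⟨V, X, hV, hVA, hX, hcov⟩ := Pool.Agent.TH404.Tor.upper m hm htor K A hA h1
  obtain ⟨N, r, p, n, v, hP, hrel, hdvd⟩ := progression T V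
  have hA0 : (0 : ℝ) < A.card := by exact_mod_cast hA.card_pos
  have hK : 1 ≤ K := by
    have h3 : (A.card : ℝ) ≤ (A + A).card := by
      exact_mod_cast Finset.card_le_card_add_right hA
    have h4 : 1 * (A.card : ℝ) ≤ K * A.card := by linarith
    exact le_of_mul_le_mul_right h4 hA0
  obtain ⟨l, hl⟩ : ∃ l : ℕ, l = Nat.log 2 m + 1 := ⟨_, rfl⟩
  rw [← hl] at hX
  have h2K : (1 : ℝ) ≤ 2 * K := by linarith
  have hprod : ((∏ a, p a : ℕ) : ℝ) ≤ (2 * K) ^ (82011 * 1 * l) := by
    rw [← hrel]
    refine (index_bound T A hA V X hcov hVA K h2).trans ?_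
    have h3 : (X.card : ℝ) ^ 2 ≤ ((2 * K) ^ (41005 * l)) ^ 2 :=
      pow_le_pow_left₀ (Nat.cast_nonneg _) hX 2
    calc K * (X.card : ℝ) ^ 2 ≤ (2 * K) ^ 1 * ((2 * K) ^ (41005 * l)) ^ 2 := by
          refine mul_le_mul (by linarith) h3 (by positivity) (by positivity)
      _ = (2 * K) ^ (1 + 41005 * l * 2) := by rw [← pow_mul, ← pow_add]
      _ ≤ _ := pow_le_pow_right₀ h2K (by omega)
  refine ⟨N, r, p, n, v, V, X, hP, hdvd m (fun x _ => htor x), hVA, ?_, ?_, hcov, fun hmp => ?_⟩
  · rw [← hl]; exact hprod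
  · rw [← hl, mul_one]; exact hX
  · -- the number of generators
    have hpm : ∀ a, p a = m := fun a =>
      (Nat.prime_dvd_prime_iff_eq (hP.2.2.1 a).1 hmp).1 (hdvd m (fun x _ => htor x) a)
    rw [Finset.prod_congr rfl fun a _ => hpm a, Finset.prod_const, Finset.card_univ,
      Fintype.card_fin] at hprod
    have hm2 : (2 : ℝ) ≤ m := by exact_mod_cast hmp.two_le
    have hlogm : Real.log 2 ≤ Real.log m := Real.log_le_log (by norm_num) hm2
    have hlog2 : 0 < Real.log 2 := Real.log_pos (by norm_num)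
    have hlogm0 : 0 < Real.log m := by linarith
    have hlogK : 0 ≤ Real.log (2 * K) := Real.log_nonneg h2K
    have h3 := Real.log_le_log (by positivity) hprod
    push_cast at h3
    rw [Real.log_pow, Real.log_pow] at h3
    have h4 : (l : ℝ) * Real.log 2 ≤ 2 * Real.log m := by
      have h5 : (Nat.log 2 m : ℝ) * Real.log 2 ≤ Real.log m := by
        have h6 := Real.log_le_log (by positivity)
          (show ((2 : ℝ) ^ Nat.log 2 m) ≤ m by exact_mod_cast Nat.pow_log_le_self 2 hm.ne')
        rwa [Real.log_pow] at h6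
      rw [hl]
      push_cast
      linarith
    have h5 : (r : ℝ) * Real.log m * Real.log 2 ≤ 82011 * (2 * Real.log m) * Real.log (2 * K) := by
      have h6 := mul_le_mul_of_nonneg_right h3 hlog2.le
      have h7 := mul_le_mul_of_nonneg_right h4 hlogK
      have h8 : ((82011 * 1 * l : ℕ) : ℝ) = 82011 * l := by push_cast; ring
      rw [h8] at h6
      nlinarith
    have h6 : (r : ℝ) * Real.log 2 ≤ 164022 * Real.log (2 * K) := by
      have h7 : ((r : ℝ) * Real.log 2) * Real.log m ≤ (164022 * Real.log (2 * K)) * Real.log m := by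
        nlinarith
      exact le_of_mul_le_mul_right h7 hlogm0
    rw [Real.logb, Nat.cast_one, mul_one, ← mul_div_assoc, le_div_iff₀ hlog2]
    exact h6

/-- for injective `T` the doubling is controlled by `A + T A` -/
theorem doubling [DecidableEq Γ] (T : Γ →+ Γ) (hT : Function.Injective T) (K : ℝ)
    (A : Finset Γ) (hA : A.Nonempty) (h2 : ((A + A.image T).card : ℝ) ≤ K * A.card) :
    1 ≤ K ∧ ((A + A).card : ℝ) ≤ K ^ 2 * A.card := by
  have hA0 : (0 : ℝ) < A.card := by exact_mod_cast hA.card_pos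
  have hTA : (A.image T).card = A.card := Finset.card_image_of_injective A hT
  have hK : 1 ≤ K := by
    have h3 : (A.card : ℝ) ≤ (A + A.image T).card := by
      exact_mod_cast Finset.card_le_card_add_right (hA.image T)
    have h4 : 1 * (A.card : ℝ) ≤ K * A.card := by linarith
    exact le_of_mul_le_mul_right h4 hA0
  refine ⟨hK, ?_⟩
  have h3 := Finset.ruzsa_triangle_inequality_add_add_add A (A.image T) A
  rw [hTA, add_comm (A.image T) A] at h3
  have h4 : ((A + A).card : ℝ) * A.card ≤ (A + A.image T).card * (A + A.image T).card := by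
    exact_mod_cast h3
  have h5 : ((A + A.image T).card : ℝ) * (A + A.image T).card ≤ (K * A.card) * (K * A.card) :=
    mul_le_mul h2 h2 (Nat.cast_nonneg _) (by positivity)
  have h6 : ((A + A).card : ℝ) * A.card ≤ (K ^ 2 * A.card) * A.card := by nlinarith
  exact le_of_mul_le_mul_right h6 hA0

/-- the powers of `T` applied to the generators are in the progression -/
theorem gen_mem (T : Γ →+ Γ) (N : AddSubgroup Γ) {r : ℕ} (p n : Fin r → ℕ) (v : Fin r → Γ)
    (V : AddSubgroup Γ) (hP : IsProgression T N p n v V) (a : Fin r) (j : ℕ) (hj : j < n a) :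
    T^[j] (v a) ∈ V := by
  classical
  obtain ⟨-, -, hp, -, hV⟩ := hP
  have h1 : value T N p n v (0, fun a' j' => ⟨if a' = a ∧ (j' : ℕ) = j then 1 else 0, by
      have := (hp a').1.two_le
      split_ifs <;> omega⟩) ∈ (V : Set Γ) := by
    rw [← hV]
    exact ⟨_, rfl⟩
  have h2 : value T N p n v (0, fun a' j' => ⟨if a' = a ∧ (j' : ℕ) = j then 1 else 0, by
      have := (hp a').1.two_le
      split_ifs <;> omega⟩) = T^[j] (v a) := by
    unfold value
    simp only [ZeroMemClass.coe_zero, zero_add]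
    rw [Finset.sum_eq_single a, Finset.sum_eq_single (⟨j, hj⟩ : Fin (n a))]
    · simp
    · intro j' _ hne
      have : (j' : ℕ) ≠ j := fun h => hne (Fin.ext h)
      simp [this]
    · intro h
      exact absurd (Finset.mem_univ _) h
    · intro a' _ hne
      refine Finset.sum_eq_zero fun j' _ => ?_
      simp [hne]
    · intro h
      exact absurd (Finset.mem_univ _) h
  rw [h2] at h1
  exact h1

/-- `T V` is covered by `∏ p a` translates of `V` -/
theorem image_rep (T : Γ →+ Γ) (N : AddSubgroup Γ) {r : ℕ} (p n : Fin r → ℕ) (v : Fin r → Γ)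
    (V : AddSubgroup Γ) (hP : IsProgression T N p n v V) (y : Γ) (hy : y ∈ V) :
    ∃ z ∈ V, ∃ c : (a : Fin r) → Fin (p a), T y = z + ∑ a, (c a : ℕ) • T^[n a] (v a) := by
  have hg := gen_mem T N p n v V hP
  obtain ⟨-, hTN, hp, -, hV⟩ := hP
  have hNV : ∀ h ∈ N, h ∈ V := by
    intro h hh
    have h1 : value T N p n v (⟨h, hh⟩, fun a' j' => ⟨0, (hp a').1.pos⟩) ∈ (V : Set Γ) := by
      rw [← hV]
      exact ⟨_, rfl⟩
    have h2 : value T N p n v (⟨h, hh⟩, fun a' j' => ⟨0, (hp a').1.pos⟩) = h := by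
      simp [value]
    rw [h2] at h1
    exact h1
  have hy' : y ∈ Set.range (value T N p n v) := by
    rw [hV]; exact hy
  obtain ⟨⟨h, c⟩, rfl⟩ := hy'
  have key : ∀ a : Fin r, ∃ z ∈ V, ∃ d : Fin (p a),
      T (∑ j : Fin (n a), (c a j : ℕ) • T^[(j : ℕ)] (v a)) = z + (d : ℕ) • T^[n a] (v a) := by
    intro a
    have h1 := (hp a).2
    obtain ⟨k, hk⟩ : ∃ k, n a = k + 1 := ⟨n a - 1, by omega⟩
    have h2 : ∀ (l : ℕ) (hl : l = k + 1) (f : Fin l → Fin (p a)),
        ∃ z ∈ V, ∃ d : Fin (p a), T (∑ j : Fin l, (f j : ℕ) • T^[(j : ℕ)] (v a)) =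
          z + (d : ℕ) • T^[l] (v a) := by
      rintro l rfl f
      refine ⟨∑ j : Fin k, (f j.castSucc : ℕ) • T^[(j : ℕ) + 1] (v a),
        V.sum_mem fun j _ => V.nsmul_mem (hg a _ (by have := j.2; omega)) _, f (Fin.last k), ?_⟩
      rw [Fin.sum_univ_castSucc]
      simp only [map_add, map_sum, map_nsmul, Fin.val_castSucc, Fin.val_last, iter_succ]
    exact h2 (n a) hk (c a)
  choose z hz d hd using key
  refine ⟨T h + ∑ a, z a, V.add_mem (hNV _ (hTN _ h.2)) (V.sum_mem fun a _ => hz a), d, ?_⟩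
  unfold value
  rw [map_add, map_sum, Finset.sum_congr rfl fun a _ => hd a, Finset.sum_add_distrib]
  abel

/-- the converse -/
theorem converse [DecidableEq Γ] (T : Γ →+ Γ) (N : AddSubgroup Γ) {r : ℕ} (p n : Fin r → ℕ)
    (v : Fin r → Γ) (V : AddSubgroup Γ) (hP : IsProgression T N p n v V) (M : ℝ) (A X : Finset Γ)
    (hV : (Nat.card V : ℝ) ≤ M * A.card) (hX : (X.card : ℝ) ≤ M)
    (hcov : ∀ a ∈ A, ∃ x ∈ X, a - x ∈ V) :
    ((A + A).card : ℝ) ≤ M ^ 3 * A.card ∧
      ((A + A.image T).card : ℝ) ≤ M ^ 3 * (∏ a, p a : ℕ) * A.card := by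
  classical
  have hfN := hP.1
  have hfin : Finite V := by
    have h1 : (Set.range (value T N p n v)).Finite := Set.finite_range _
    rw [hP.2.2.2.2] at h1
    exact h1.to_subtype
  obtain ⟨F, hF⟩ : ∃ F : Finset Γ, F = (Set.toFinite (V : Set Γ)).toFinset := ⟨_, rfl⟩
  have hmemF : ∀ x, x ∈ F ↔ x ∈ V := by
    intro x
    rw [hF, Set.Finite.mem_toFinset]
    rfl
  have hcF : F.card = Nat.card V := by
    rw [hF]
    exact (Set.ncard_eq_toFinset_card (V : Set Γ) (Set.toFinite _)).symm
  have hM0 : 0 ≤ M := (Nat.cast_nonneg _).trans hX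
  have hb : ∀ Y : Finset Γ, (Y.card : ℝ) ≤ M ^ 2 → ((Y + F).card : ℝ) ≤ M ^ 3 * A.card := by
    intro Y hY
    calc ((Y + F).card : ℝ) ≤ Y.card * F.card := by exact_mod_cast Finset.card_add_le
      _ ≤ M ^ 2 * (M * A.card) := by
          rw [hcF]
          exact mul_le_mul hY hV (Nat.cast_nonneg _) (by positivity)
      _ = _ := by ring
  have hsq : ∀ Y Z : Finset Γ, (Y.card : ℝ) ≤ M → (Z.card : ℝ) ≤ M → ((Y + Z).card : ℝ) ≤ M ^ 2 := by
    intro Y Z hY hZ
    calc ((Y + Z).card : ℝ) ≤ Y.card * Z.card := by exact_mod_cast Finset.card_add_le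
      _ ≤ M * M := mul_le_mul hY hZ (Nat.cast_nonneg _) hM0
      _ = _ := by ring
  constructor
  · refine le_trans ?_ (hb (X + X) (hsq X X hX hX))
    have h1 : A + A ⊆ (X + X) + F := by
      intro y hy
      obtain ⟨a, ha, b, hb, rfl⟩ := mem_add.1 hy
      obtain ⟨x, hx, h1⟩ := hcov a ha
      obtain ⟨x', hx', h2⟩ := hcov b hb
      refine mem_add.2 ⟨x + x', add_mem_add hx hx', (a - x) + (b - x'),
        (hmemF _).2 (V.add_mem h1 h2), by abel⟩
    exact_mod_cast card_le_card h1
  · obtain ⟨D, hD⟩ : ∃ D : Finset Γ, D = (Finset.univ : Finset ((a : Fin r) → Fin (p a))).image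
        (fun c => ∑ a, (c a : ℕ) • T^[n a] (v a)) := ⟨_, rfl⟩
    have hDc : D.card ≤ ∏ a, p a := by
      rw [hD]
      refine Finset.card_image_le.trans (le_of_eq ?_)
      rw [Finset.card_univ, Fintype.card_pi]
      simp
    have hXT : ((X.image T).card : ℝ) ≤ M :=
      le_trans (by exact_mod_cast Finset.card_image_le) hX
    have h1 : A + A.image T ⊆ ((X + X.image T) + F) + D := by
      intro y hy
      obtain ⟨a, ha, w, hw, rfl⟩ := mem_add.1 hy
      obtain ⟨b, hb, rfl⟩ := mem_image.1 hw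
      obtain ⟨x, hx, h1⟩ := hcov a ha
      obtain ⟨x', hx', h2⟩ := hcov b hb
      obtain ⟨z, hz, c, hc⟩ := image_rep T N p n v V hP _ h2
      refine mem_add.2 ⟨(x + T x') + ((a - x) + z), add_mem_add
        (add_mem_add hx (mem_image_of_mem _ hx')) ((hmemF _).2 (V.add_mem h1 hz)),
        ∑ a, (c a : ℕ) • T^[n a] (v a), by rw [hD]; exact mem_image.2 ⟨c, mem_univ _, rfl⟩, ?_⟩
      rw [map_sub] at hc
      have h3 : T b = T x' + z + ∑ a, (c a : ℕ) • T^[n a] (v a) := by
        have h4 : T b = T x' + (T b - T x') := by abel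
        rw [h4, hc]
        abel
      rw [h3]
      abel
    have h2 : ((A + A.image T).card : ℝ) ≤ (((X + X.image T) + F).card : ℝ) * D.card := by
      have h5 := (card_le_card h1).trans Finset.card_add_le
      exact_mod_cast h5
    have h3 := hb (X + X.image T) (hsq X (X.image T) hX hXT)
    calc ((A + A.image T).card : ℝ) ≤ (((X + X.image T) + F).card : ℝ) * D.card := h2
      _ ≤ (M ^ 3 * A.card) * (∏ a, p a : ℕ) :=
          mul_le_mul h3 (by exact_mod_cast hDc) (Nat.cast_nonneg _) (by positivity)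
      _ = _ := by ring

/-- **The polynomial Freiman-Ruzsa conjecture for modules over `(ℤ / m)[t]`.** Let `m Γ = 0`, let `T` be an endomorphism
of `Γ`, and `A` a finite nonempty subset.
(1) If `|A + A| ≤ K |A|` and `|A + T A| ≤ K |A|` then `A` is covered by `(2 K) ^ O(log m)` translates of `N + P`, where `N`
is a finite submodule and `P` a progression over `(ℤ / m)[t]`, with `|N + P| ≤ |A|` and `∏ p a ≤ (2 K) ^ O(log m)`, and with
`O(log (2 K))` generators if `m` is prime; see `Structured`.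
(2) If `T` is injective then `|A + T A| ≤ K |A|` suffices (with twice the exponents).
(3) Conversely, let `A` be covered by at most `M` translates of an `N + P` with at most `M |A|` elements. Then
`|A + A| ≤ M ^ 3 |A|` and `|A + T A| ≤ M ^ 3 (∏ p a) |A|`. -/
theorem result (m : ℕ) (hm : 0 < m) [DecidableEq Γ] (htor : ∀ x : Γ, m • x = 0) (T : Γ →+ Γ)
    (A : Finset Γ) (hA : A.Nonempty) :
    (∀ K : ℝ, ((A + A).card : ℝ) ≤ K * A.card → ((A + A.image T).card : ℝ) ≤ K * A.card →
      Structured T m K A 1) ∧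
    (Function.Injective T → ∀ K : ℝ, ((A + A.image T).card : ℝ) ≤ K * A.card →
      Structured T m K A 2) ∧
    (∀ (N : AddSubgroup Γ) (r : ℕ) (p n : Fin r → ℕ) (v : Fin r → Γ) (V : AddSubgroup Γ),
      IsProgression T N p n v V → ∀ (M : ℝ) (X : Finset Γ), (Nat.card V : ℝ) ≤ M * A.card →
      (X.card : ℝ) ≤ M → (∀ a ∈ A, ∃ x ∈ X, a - x ∈ V) →
      ((A + A).card : ℝ) ≤ M ^ 3 * A.card ∧
        ((A + A.image T).card : ℝ) ≤ M ^ 3 * (∏ a, p a : ℕ) * A.card) := by
  refine ⟨fun K h1 h2 => main m hm htor T K A hA h1 h2, fun hT K h2 => ?_,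
    fun N r p n v V hP M X hV hX hcov => converse T N p n v V hP M A X hV hX hcov⟩
  obtain ⟨hK, h1⟩ := doubling T hT K A hA h2
  have hKK : K ≤ K ^ 2 := by nlinarith
  have h3 : ((A + A.image T).card : ℝ) ≤ K ^ 2 * A.card :=
    h2.trans (mul_le_mul_of_nonneg_right hKK (Nat.cast_nonneg _))
  obtain ⟨N, r, p, n, v, V, X, hP, hdvd, hVA, hprod, hX, hcov, hr⟩ :=
    main m hm htor T (K ^ 2) A hA h1 h3
  have hle : 2 * K ^ 2 ≤ (2 * K) ^ 2 := by nlinarith
  have hpow : ∀ e : ℕ, (2 * K ^ 2) ^ e ≤ (2 * K) ^ (e * 2) := by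
    intro e
    rw [mul_comm e 2, pow_mul]
    exact pow_le_pow_left₀ (by positivity) hle e
  refine ⟨N, r, p, n, v, V, X, hP, hdvd, hVA, ?_, ?_, hcov, fun hmp => ?_⟩
  · have h5 := hprod.trans (hpow _)
    rwa [show 82011 * 1 * (Nat.log 2 m + 1) * 2 = 82011 * 2 * (Nat.log 2 m + 1) by omega] at h5
  · have h5 := hX.trans (hpow _)
    rwa [show 41005 * 1 * (Nat.log 2 m + 1) * 2 = 41005 * 2 * (Nat.log 2 m + 1) by omega] at h5
  · refine (hr hmp).trans ?_
    have h4 : Real.logb 2 (2 * K ^ 2) ≤ 2 * Real.logb 2 (2 * K) := by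
      have h5 : (2 : ℝ) * Real.logb 2 (2 * K) = Real.logb 2 ((2 * K) ^ 2) := by
        rw [Real.logb_pow]; norm_num
      rw [h5]
      exact Real.logb_le_logb_of_le (by norm_num) (by positivity) hle
    push_cast
    nlinarith

end Pool.Agent.Results.MP_dd2a7c_co.PolynomialProgressions
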