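import Pool.Agent.U546.FB.Thm
import Pool.Agent.U546.FB.Opt

/-!
# The Freiman–Bilu theorem with sharp dimension and almost polynomial bounds, in all abelian groups

(1) A finite set `A` in an arbitrary abelian group with `|A + A| ≤ K |A|` is covered, for every
`0 < δ ≤ 1`, by `(2K)^(C (1 + log (1 + log 2K)) log (2 + 1/δ) / δ^2)` translates of a proper coset
progression `H + P` with `|H + P| ≤ |A|` and of dimension at most `log₂ K + δ log₂ (2K)`.

(2) The dimension `log₂ K` is optimal: the box `{0, …, N-1}^d` has doubling at most `K = 2^d`, and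
it is not covered by fewer than `N` translates of a coset progression (of any size) of dimension
less than `d = log₂ K`.
-/

set_option autoImplicit false

open scoped Pointwise

namespace Pool.Agent.Results.MP_dd2a7c_co.SharpDimension

universe u

theorem result :
    (∀ {Γ : Type u} [AddCommGroup Γ] [DecidableEq Γ] (A : Finset Γ), A.Nonempty →
      ∀ K : ℝ, ((A + A).card : ℝ) ≤ K * A.card → ∀ δ : ℝ, 0 < δ → δ ≤ 1 →
      ∃ (k : ℕ) (v : Fin k → Γ) (L : Fin k → ℕ) (H : AddSubgroup Γ) (T : Finset Γ),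
        ((k : ℝ) ≤ Real.logb 2 K + δ * Real.logb 2 (2 * K) ∨
          (k = 1 ∧ ∃ H' : AddSubgroup Γ, Finite H' ∧ A.card < Nat.card H')) ∧
        Finite H ∧
        (∀ a b : Fin k → ℤ, (∀ i, |a i| ≤ L i) → (∀ i, |b i| ≤ L i) →
          ∑ i, a i • v i - ∑ i, b i • v i ∈ H → a = b) ∧
        (∏ i, (2 * L i + 1)) * Nat.card H ≤ A.card ∧
        (T.card : ℝ) ≤ (2 * K) ^ (140000000000 * (1 + Real.log (1 + Real.log (2 * K))) *
          Real.log (2 + 1 / δ) / δ ^ 2) ∧
        ∀ a ∈ A, ∃ t ∈ T, ∃ c : Fin k → ℤ, (∀ i, |c i| ≤ L i) ∧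
          a - t - ∑ i, c i • v i ∈ H) ∧
    (∀ d N : ℕ, 1 ≤ N → ∃ A : Finset (Fin d → ℤ), A.card = N ^ d ∧
      (A + A).card ≤ 2 ^ d * A.card ∧
      ∀ (k : ℕ) (v : Fin k → (Fin d → ℤ)) (H : AddSubgroup (Fin d → ℤ))
        (T : Finset (Fin d → ℤ)), k < d → Finite H →
        (∀ a ∈ A, ∃ t ∈ T, ∃ c : Fin k → ℤ, a - t - ∑ i, c i • v i ∈ H) → N ≤ T.card) := by
  refine ⟨?_, Pool.Agent.U546.FB.box_opt⟩
  intro Γ _ _ A hA K hK δ hδ0 hδ1
  obtain ⟨k, v, L, H, T, hk, hH, hMp, hvol, hT, hst⟩ :=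
    Pool.Agent.U546.FB.main hA hK hδ0 hδ1
  refine ⟨k, v, L, H, T, hk, hH, ?_, hvol, hT, hst⟩
  intro a b ha hb hab
  have h := hMp (a - b) (fun i => by
    have h1 := abs_sub (a i) (b i)
    have h2 := ha i
    have h3 := hb i
    rw [Pi.sub_apply]
    push_cast
    linarith) (by
    simp only [Pi.sub_apply, sub_smul, Finset.sum_sub_distrib]
    exact hab)
  exact sub_eq_zero.1 h

end Pool.Agent.Results.MP_dd2a7c_co.SharpDimension
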