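import Mathlib
import Pool.Agent.U356.SY.Reduce

/-!
# The polynomial Freiman-Ruzsa conjecture for sets that are almost invariant under a group

Let `Γ` be an abelian group, `W` ANY group of automorphisms of `Γ` (finite or infinite) and `A ⊆ Γ` finite
and nonempty with `|A + w A| ≤ K |A|` for all `w ∈ W`; for example a set with `|A + A| ≤ K |A|` which is
invariant under `W`. All constants are absolute; they do not depend on `W`. `Saturated V` says that
`k x ∈ V`, `k > 0` implies `x ∈ V`; the rank is the rank over `ℤ` (so the torsion of `Γ` is in `V` and has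
rank `0`).

1. `A` is covered by `(2 K) ^ 1336` cosets of a `W`-INVARIANT saturated subgroup of rank at most
   `1332 log (2 K)`. For `W = 1` this is (up to the constants) the weak form of the polynomial
   Freiman-Ruzsa conjecture, with the torsion put into the subgroup.
2. (families) If `A i` are finitely many sets with `|A i + A j| ≤ K |A i|` then there is a saturated
   subgroup `V` of rank at most `666 log (2 K)` such that every `A i` is covered by `(2 K) ^ 667` cosets of
   `V`, and `w (V) = V` for EVERY automorphism `w` of `Γ` which permutes the sets `A i` up to translations. For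
   a single set `A`: `V` is invariant under the linear parts of all affine automorphisms preserving `A`.
3. (reduction) Q1 for `A` follows from Q1 for the finite subsets of the `W`-invariant saturated subgroups
   of `Γ` of rank at most `1332 log (2 K)`. (For instance, for sets almost invariant under the permutations
   of the coordinates of `ℤ ^ n`, `n > 1332 log (2 K) + 1`, it follows from Q1 for `ℤ`.)
4. (a case of Q1) If the torsion elements of `Γ` are killed by `m` and all `W`-invariant subgroups of `Γ` of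
   rank at most `1332 log (2 K)` have rank `0`, then the conclusion of Q1 is true for `A`, with dimension
   `0`: `A` is covered by `(2 K) ^ (60000000 (⌊log₂ m⌋ + 1))` cosets of a finite subgroup of order at most `|A|`.
5. (growth) Let `Γ` be torsion-free and let all nonzero `W`-invariant subgroups of `Γ` have rank at least
   `n`. Then for every finite nonempty `A ⊆ Γ` there is `w ∈ W` with
   `|A + w A| ≥ |A| min (|A|, exp n) ^ (1 / 4008)`.
6. (growth in real spaces) The same in a real vector space, if `W` acts linearly and all nonzero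
   `W`-invariant real subspaces have dimension at least `n`. So if `W` is any irreducible group of linear
   maps of `ℝ ^ n` and `1 ≤ K < exp (n / 4008)` then there is no finite set `A` of more than `K ^ 4008` points
   with `|A + w A| ≤ K |A|` for all `w ∈ W`. Up to the constant in the exponent `exp n` is optimal (cubes
   `{- N, ..., N} ^ n` and signed permutations), while for sets without symmetry the factor is only linear
   in `n` (Freiman's lemma).

Proof. If `X` is uniform on `A` then the entropy of `X` modulo `V` is a submodular function of the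
subgroup `V`, and the rank is modular. If `W` is finite, the minimisers of the sum over `w ∈ W` of the
entropy of `w X` modulo `V` plus `|W|` times the rank of `V` are closed under intersections, up to
saturation, and the smallest one is invariant. The minimum is small by the weak Marton theorem of
the starting library (`H137.Weak.weak_marton`) and Ruzsa's covering lemma. If `W` is infinite, the
separation lemma of P. M. Neumann gives `w ∈ W` such that `w (x) ∉ A - A` for all `x ∈ A - A` with
infinite orbit; since the additive energy of `A` and `w A` is large, a translate of a large part of `A`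
consists of elements with finite orbits.
-/

set_option autoImplicit false

namespace Pool.Agent.Results.MP_dd2a7c_co.SymmetricSets

open Finset
open scoped Pointwise

universe u v

/-- `A` is covered by at most `L` cosets of `V`. -/
def Cov {Γ : Type u} [AddCommGroup Γ] (A : Finset Γ) (V : AddSubgroup Γ) (L : ℝ) : Prop :=
  ∃ T : Finset Γ, (T.card : ℝ) ≤ L ∧ ∀ a ∈ A, ∃ t ∈ T, a - t ∈ V

/-- `x ∈ V` whenever a positive multiple of `x` is in `V`. -/
def Saturated {Γ : Type u} [AddCommGroup Γ] (V : AddSubgroup Γ) : Prop :=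
  ∀ (x : Γ) (k : ℕ), 0 < k → k • x ∈ V → x ∈ V

/-- The rank of `V` over the integers is the natural number `r`. -/
def HasRank {Γ : Type u} [AddCommGroup Γ] (V : AddSubgroup Γ) (r : ℕ) : Prop :=
  Module.rank ℤ V = r

/-- `w (V) ⊆ V` for all `w ∈ W`. -/
def Invariant (W : Type v) [Group W] {Γ : Type u} [AddCommGroup Γ] [DistribMulAction W Γ]
    (V : AddSubgroup Γ) : Prop :=
  ∀ (w : W), ∀ x ∈ V, w • x ∈ V

/-- `w` permutes the sets `A i` up to translations. -/
def Permutes {Γ : Type u} [AddCommGroup Γ] [DecidableEq Γ] {ι : Type v} (A : ι → Finset Γ)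
    (w : Γ ≃+ Γ) : Prop :=
  ∃ (σ : Equiv.Perm ι) (b : ι → Γ), ∀ i, (A i).image (fun a => w a + b i) = A (σ i)

/-- `|A + w A| ≤ K |A|` for all `w ∈ W`. -/
def AlmostInvariant (W : Type v) [Group W] {Γ : Type u} [AddCommGroup Γ] [DecidableEq Γ]
    [DistribMulAction W Γ] (K : ℝ) (A : Finset Γ) : Prop :=
  ∀ w : W, ((A + A.image fun a => w • a).card : ℝ) ≤ K * A.card

/-- The conclusion of Q1 for the set `A` with the constant `C`: `A` is covered by `C K ^ C` translates of
a centred convex coset progression `ψ (B ∩ ℤ ^ d) + H` of dimension `d ≤ C log (2 K)` and volume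
`|B ∩ ℤ ^ d| |H| ≤ |A|`. -/
def Conclusion {Γ : Type u} [AddCommGroup Γ] (C K : ℝ) (A : Finset Γ) : Prop :=
  ∃ (d : ℕ) (B : Set (Fin d → ℝ)) (ψ : (Fin d → ℤ) →+ Γ) (H : AddSubgroup Γ) (T : Finset Γ),
    (d : ℝ) ≤ C * Real.log (2 * K) ∧ Convex ℝ B ∧ IsCompact B ∧ (interior B).Nonempty ∧
    (∀ x ∈ B, -x ∈ B) ∧ Finite H ∧
    {x : Fin d → ℤ | (fun i => (x i : ℝ)) ∈ B}.ncard * Nat.card H ≤ A.card ∧
    (T.card : ℝ) ≤ C * K ^ C ∧
    ∀ a ∈ A, ∃ t ∈ T, ∃ x : Fin d → ℤ, (fun i => (x i : ℝ)) ∈ B ∧ ∃ h ∈ H, a = t + ψ x + h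

/-- Q1 with the constant `C` for the finite subsets of the group `Γ`. -/
def Q1For (C : ℝ) (Γ : Type u) [AddCommGroup Γ] [DecidableEq Γ] : Prop :=
  ∀ (K : ℝ) (A : Finset Γ), A.Nonempty → ((A + A).card : ℝ) ≤ K * A.card → Conclusion C K A

theorem result :
    -- 1. arbitrary groups of automorphisms
    (∀ (Γ : Type u) [AddCommGroup Γ] [DecidableEq Γ] (W : Type v) [Group W]
      [DistribMulAction W Γ] (K : ℝ) (A : Finset Γ), A.Nonempty → AlmostInvariant W K A →
      ∃ V : AddSubgroup Γ, Saturated V ∧ (∃ r : ℕ, HasRank V r ∧ (r : ℝ) ≤ 1332 * Real.log (2 * K)) ∧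
        Invariant W V ∧ Cov A V ((2 * K) ^ 1336)) ∧
    -- 2. families of sets
    (∀ (Γ : Type u) [AddCommGroup Γ] [DecidableEq Γ] (ι : Type v) [Finite ι] [Nonempty ι]
      (K : ℝ) (A : ι → Finset Γ), (∀ i, (A i).Nonempty) →
      (∀ i j, ((A i + A j).card : ℝ) ≤ K * (A i).card) →
      ∃ V : AddSubgroup Γ, Saturated V ∧ (∃ r : ℕ, HasRank V r ∧ (r : ℝ) ≤ 666 * Real.log (2 * K)) ∧
        (∀ w : Γ ≃+ Γ, Permutes A w → V.map w.toAddMonoidHom = V) ∧
        ∀ i, Cov (A i) V ((2 * K) ^ 667)) ∧
    -- 3. reduction to invariant subgroups of small rank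
    (∀ C : ℝ, ∃ C' : ℝ, ∀ (Γ : Type u) [AddCommGroup Γ] [DecidableEq Γ] (W : Type v) [Group W]
      [DistribMulAction W Γ] (K : ℝ) (A : Finset Γ), A.Nonempty →
      AlmostInvariant W K A →
      (∀ (V : AddSubgroup Γ) (r : ℕ), Invariant W V → Saturated V → HasRank V r →
        (r : ℝ) ≤ 1332 * Real.log (2 * K) → Q1For C V) → Conclusion C' K A) ∧
    -- 4. no invariant subgroup of small positive rank
    (∀ (m : ℕ), 0 < m → ∀ (Γ : Type u) [AddCommGroup Γ] [DecidableEq Γ] (W : Type v) [Group W]
      [DistribMulAction W Γ] (K : ℝ) (A : Finset Γ),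
      (∀ x : Γ, (∃ k : ℕ, 0 < k ∧ k • x = 0) → m • x = 0) →
      (∀ (V : AddSubgroup Γ) (r : ℕ), Invariant W V → HasRank V r →
        (r : ℝ) ≤ 1332 * Real.log (2 * K) → r = 0) →
      A.Nonempty → AlmostInvariant W K A →
      ∃ H : AddSubgroup Γ, Finite H ∧ Nat.card H ≤ A.card ∧
        Cov A H ((2 * K) ^ (60000000 * (Nat.log 2 m + 1)))) ∧
    -- 5. growth in torsion-free groups
    (∀ (Γ : Type u) [AddCommGroup Γ] [DecidableEq Γ] [IsAddTorsionFree Γ] (W : Type v) [Group W]
      [DistribMulAction W Γ] (n : ℕ),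
      (∀ V : AddSubgroup Γ, Invariant W V → V ≠ ⊥ → (n : Cardinal) ≤ Module.rank ℤ V) →
      ∀ A : Finset Γ, A.Nonempty → ∃ w : W,
        (A.card : ℝ) * (min (A.card : ℝ) (Real.exp n)) ^ (1 / 4008 : ℝ) ≤
          (A + A.image fun a => w • a).card) ∧
    -- 6. growth in real vector spaces
    (∀ (E : Type u) [AddCommGroup E] [Module ℝ E] [DecidableEq E] (W : Type v) [Group W]
      [DistribMulAction W E], (∀ (w : W) (c : ℝ) (x : E), w • (c • x) = c • (w • x)) →
      ∀ n : ℕ, (∀ U : Submodule ℝ E, (∀ (w : W), ∀ x ∈ U, w • x ∈ U) → U ≠ ⊥ →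
        (n : Cardinal) ≤ Module.rank ℝ U) →
      ∀ A : Finset E, A.Nonempty → ∃ w : W,
        (A.card : ℝ) * (min (A.card : ℝ) (Real.exp n)) ^ (1 / 4008 : ℝ) ≤
          (A + A.image fun a => w • a).card) := by
  have hconcl : ∀ {Γ : Type u} [AddCommGroup Γ] (C K : ℝ) (A : Finset Γ),
      Conclusion C K A ↔ Pool.Agent.R92.Star.Concl C K A := by
    intro Γ _ C K A
    constructor
    · rintro ⟨d, B, ψ, H, T, h1, h2, h3, h4, h5, h6, h7, h8, h9⟩
      exact ⟨d, B, ψ, H, T, h1, ⟨h2, h3, h4, h5⟩, h6, h7, h8, h9⟩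
    · rintro ⟨d, B, ψ, H, T, h1, ⟨h2, h3, h4, h5⟩, h6, h7, h8, h9⟩
      exact ⟨d, B, ψ, H, T, h1, h2, h3, h4, h5, h6, h7, h8, h9⟩
  refine ⟨?_, ?_, ?_, ?_, ?_, ?_⟩
  · intro Γ _ _ W _ _ K A hA hK
    obtain ⟨V, h1, h2, h3, h4, h5⟩ := Pool.Agent.U356.SY.group_all W hA hK
    exact ⟨V, h2, ⟨_, (Pool.Agent.U356.SY.rkN_cast h3).symm, h4⟩, h1, h5⟩
  · intro Γ _ _ ι _ _ K A hA hK
    have := Fintype.ofFinite ι
    obtain ⟨V, h1, h2, h3, h4, h5⟩ := Pool.Agent.U356.SY.family hA hK
    exact ⟨V, h2, ⟨_, (Pool.Agent.U356.SY.rkN_cast h3).symm, h4⟩, h1, h5⟩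
  · intro C
    obtain ⟨C', hC'⟩ := Pool.Agent.U356.SY.reduce.{u, v} C
    refine ⟨C', fun Γ _ _ W _ _ K A hA hK hQ => ?_⟩
    rw [hconcl]
    refine hC' Γ W K A hA hK fun V r h1 h2 h3 h4 K' S hS hSS => ?_
    rw [← hconcl]
    exact hQ V r h1 h2 h3 h4 K' S hS hSS
  · intro m hm Γ _ _ W _ _ K A htor hW hA hK
    exact Pool.Agent.U356.SY.q1 m hm htor W (fun V r h1 h2 h3 => hW V r h1 h2 h3) hA hK
  · intro Γ _ _ _ W _ _ n hW A hA
    exact Pool.Agent.U356.SY.growth W n hW hA
  · intro E _ _ _ W _ _ hlin n hW A hA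
    exact Pool.Agent.U356.SY.growth_real W hlin n hW hA

end Pool.Agent.Results.MP_dd2a7c_co.SymmetricSets
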